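import Mathlib
import Pool.Agent.H917R2.Tr.Stubs

/-!
Task R_lim: the limit functional.
-/

open scoped ComplexOrder InnerProductSpace Topology
open Filter

noncomputable section

namespace H956R2.Tr

open H759R2.Kad H710R2.DP H917R2.Tr

theorem p_R_lim (h : R_vf) (_h' : T_mu) : R_lim := by
  intro H _ _ _ M ξ hξ hζ
  choose ζ hζs hζq hζc using fun n : ℕ => hζ (1 / ((n : ℝ) + 1)) (by positivity)
  have h1M : (1 : H →L[ℂ] H) ∈ M := one_mem _
  set R : ℝ := 4 * mu ξ 1 with hR
  have hbd : ∀ (x : H →L[ℂ] H) (n : ℕ), ‖vf (ζ n) x‖ ≤ ‖x‖ * R := by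
    intro x n
    refine ((h H (ζ n) (hζs n)).2.2.2.1 x).trans ?_
    exact mul_le_mul_of_nonneg_left (hζc n 1 h1M).1 (norm_nonneg _)
  have hlim : ∀ x : H →L[ℂ] H, ∃ z : ℂ,
      Tendsto (fun n => vf (ζ n) x) (hyperfilter ℕ : Filter ℕ) (𝓝 z) := by
    intro x
    have hc : IsCompact (Metric.closedBall (0 : ℂ) (‖x‖ * R)) := isCompact_closedBall _ _
    obtain ⟨z, -, hz⟩ := hc.ultrafilter_le_nhds ((hyperfilter ℕ).map (fun n => vf (ζ n) x)) (by
      rw [Ultrafilter.coe_map]
      refine (tendsto_principal (f := fun n => vf (ζ n) x)).2 (Eventually.of_forall fun n => ?_)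
      rw [mem_closedBall_zero_iff]
      exact hbd x n)
    exact ⟨z, hz⟩
  choose θ hθ using hlim
  have hmu : ∀ x : H →L[ℂ] H, Tendsto (fun n => ((mu (ζ n) x : ℝ) : ℂ))
      (hyperfilter ℕ : Filter ℕ) (𝓝 (θ (star x * x))) := by
    intro x
    have h1 := hθ (star x * x)
    refine h1.congr fun n => ?_
    exact (h H (ζ n) (hζs n)).2.2.2.2 x
  have hre : ∀ x : H →L[ℂ] H, Tendsto (fun n => mu (ζ n) x)
      (hyperfilter ℕ : Filter ℕ) (𝓝 (θ (star x * x)).re) := by
    intro x
    exact (Complex.continuous_re.tendsto _).comp (hmu x)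
  have him : ∀ x : H →L[ℂ] H, (θ (star x * x)).im = 0 := by
    intro x
    have h1 := (Complex.continuous_im.tendsto _).comp (hmu x)
    have h2 : (Complex.im ∘ fun n => ((mu (ζ n) x : ℝ) : ℂ)) = fun _ => (0 : ℝ) := by
      funext n; simp
    rw [h2] at h1
    exact tendsto_nhds_unique h1 tendsto_const_nhds |>.symm ▸ rfl
  have hone : Tendsto (fun n : ℕ => (1 + 1 / ((n : ℝ) + 1))) (hyperfilter ℕ : Filter ℕ)
      (𝓝 1) := by
    have h1 : Tendsto (fun n : ℕ => (1 + 1 / ((n : ℝ) + 1))) atTop (𝓝 (1 + 0)) :=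
      tendsto_const_nhds.add tendsto_one_div_add_atTop_nhds_zero_nat
    rw [add_zero] at h1
    exact h1.mono_left Nat.hyperfilter_le_atTop
  have hle : ∀ x ∈ M, (θ (star x * x)).re ≤ (θ (star (star x) * star x)).re := by
    intro x hx
    have h2 := hone.mul (hre (star x))
    rw [one_mul] at h2
    exact le_of_tendsto_of_tendsto' (hre x) h2 fun n => hζq n x hx (one_mul x)
  refine ⟨θ, ?_, ?_, ?_, ?_⟩
  · intro x y
    refine tendsto_nhds_unique (hθ (x + y)) (((hθ x).add (hθ y)).congr fun n => ?_)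
    exact ((h H (ζ n) (hζs n)).2.1 x y).symm
  · intro a x
    refine tendsto_nhds_unique (hθ (a • x)) (((hθ x).const_mul a).congr fun n => ?_)
    exact ((h H (ζ n) (hζs n)).2.2.1 a x).symm
  · intro x hx
    have h1 := hle x hx
    have h2 := hle (star x) (star_mem hx)
    rw [star_star] at h1 h2
    apply Complex.ext
    · exact le_antisymm h1 h2
    · rw [him x]
      have h3 := him (star x)
      rw [star_star] at h3
      rw [h3]
  · intro x hx
    refine ⟨him x, ?_, ?_⟩
    · exact le_of_tendsto' (hre x) fun n => (hζc n x hx).1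
    · exact ge_of_tendsto' ((hre x).const_mul 4) fun n => (hζc n x hx).2

end H956R2.Tr
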